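import Mathlib

set_option autoImplicit false

namespace Pool.Agent.Results.MP_97d187_lc.Never

open Set Filter Function Topology Cardinal

def Nonprincipal (U : Ultrafilter ℕ) : Prop := ∀ n, {n} ∉ U

def QPoint (U : Ultrafilter ℕ) : Prop := Nonprincipal U ∧ ∀ 𝒞 : Set (Set ℕ),
  Setoid.IsPartition 𝒞 → (∀ P ∈ 𝒞, P.Finite) → ∃ X ∈ U, ∀ P ∈ 𝒞, (X ∩ P).Subsingleton

def Iso (U V : Ultrafilter ℕ) : Prop := ∃ π : Equiv.Perm ℕ, V = U.map π

lemma qp_iff {U : Ultrafilter ℕ} : QPoint U ↔ Nonprincipal U ∧ ∀ f : ℕ → ℕ,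
    (∀ c, {x | f x = c}.Finite) → ∃ X ∈ U, InjOn f X := by
  refine and_congr_right fun _ => ⟨fun h f hf => ?_, fun h 𝒞 h1 h2 => ?_⟩
  · obtain ⟨X, a, b⟩ := h _ (Setoid.isPartition_classes (Setoid.ker f)) (by
      rintro _ ⟨y, rfl⟩
      exact hf (f y))
    exact ⟨X, a, fun x hx y hy e => b _ ⟨y, rfl⟩ ⟨hx, e⟩ ⟨hy, rfl⟩⟩
  · choose P p1 p2 using h1.2
    have m : ∀ x, P (sInf (P x)) = P x := fun x =>
      (p2 _ _ ⟨(p1 x).1, Nat.sInf_mem ⟨x, (p1 x).2⟩⟩).symm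
    obtain ⟨X, a, b⟩ := h (fun x => sInf (P x)) fun c => (h2 _ (p1 c).1).subset fun x hx => by
      rw [← show sInf (P x) = c from hx, m]
      exact (p1 x).2
    refine ⟨X, a, fun Q hQ x hx y hy => b hx.1 hy.1 ?_⟩
    show sInf (P x) = sInf (P y)
    rw [← p2 x Q ⟨hQ, hx.2⟩, ← p2 y Q ⟨hQ, hy.2⟩]

lemma Nonprincipal.inf {U : Ultrafilter ℕ} (h : Nonprincipal U) {S : Set ℕ} (hS : S ∈ U) :
    S.Infinite := fun t => by
  obtain ⟨x, -, rfl⟩ := U.eq_pure_of_finite_mem t hS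
  exact h x rfl

lemma iso_of {U V : Ultrafilter ℕ} (hU : Nonprincipal U) {f g : ℕ → ℕ} {A B : Set ℕ} (hA : A ∈ U)
    (hB : B ∈ V) (hf : InjOn f A) (hg : InjOn g B) (h : U.map f = V.map g) : Iso U V := by
  have tr : ∀ S ∈ V, f ⁻¹' (g '' S) ∈ U := fun S hS => by
    have : g '' S ∈ V.map g := image_mem_map hS
    rwa [← h] at this
  have a1 : A ∩ f ⁻¹' (g '' B) ∈ U := inter_mem hA (tr B hB)
  choose! k k1 k2 using fun x (hx : x ∈ A ∩ f ⁻¹' (g '' B)) => hx.2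
  have ki : InjOn k (A ∩ f ⁻¹' (g '' B)) := fun x hx y hy e =>
    hf hx.1 hy.1 (by rw [← k2 x hx, ← k2 y hy, e])
  obtain ⟨C, c1, c2, c3⟩ : ∃ C ⊆ A ∩ f ⁻¹' (g '' B), C ∈ U ∧
      ((A ∩ f ⁻¹' (g '' B)) \ C).Infinite := by
    let e := (hU.inf a1).natEmbedding
    have ei : Injective fun n => (e n : ℕ) := Subtype.val_injective.comp e.injective
    by_cases c : range (fun n => (e (2 * n) : ℕ)) ∈ U
    · refine ⟨_, by rintro _ ⟨n, rfl⟩; exact (e _).2, c, (infinite_range_of_injective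
        (f := fun n => (e (2 * n + 1) : ℕ)) fun a b t => by have := ei t; omega).mono ?_⟩
      rintro _ ⟨n, rfl⟩
      exact ⟨(e _).2, fun ⟨m, t⟩ => by have := ei t; omega⟩
    · refine ⟨_, diff_subset, inter_mem a1 (Ultrafilter.compl_mem_iff_notMem.mpr c),
        (infinite_range_of_injective
        (f := fun n => (e (2 * n) : ℕ)) fun a b t => by have := ei t; omega).mono ?_⟩
      rintro _ ⟨n, rfl⟩
      exact ⟨(e _).2, fun t => t.2 ⟨n, rfl⟩⟩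
  let j : C ↪ ℕ := ⟨fun x => k x, fun x y t => Subtype.ext (ki (c1 x.2) (c1 y.2) t)⟩
  haveI : Infinite (Cᶜ : Set ℕ) := (c3.mono fun x hx => hx.2).to_subtype
  haveI : Infinite ((range j)ᶜ : Set ℕ) := ((c3.image (ki.mono diff_subset)).mono (by
    rintro _ ⟨x, hx, rfl⟩ ⟨y, hy⟩
    exact hx.2 (ki (c1 y.2) hx.1 hy ▸ y.2))).to_subtype
  obtain ⟨π, hπ⟩ := Cardinal.extend_function j nonempty_equiv_of_countable
  refine ⟨π, (Ultrafilter.eq_of_le fun S hS => ?_).symm⟩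
  show π ⁻¹' S ∈ U
  filter_upwards [c2, tr _ (inter_mem hS hB)] with x hx ⟨y, hy, e⟩
  have : π x = y := (hπ ⟨x, hx⟩).trans (hg (k1 x (c1 hx)) hy.2 ((k2 x (c1 hx)).trans e.symm))
  exact show π x ∈ S from this ▸ hy.1

lemma disc_of {φ : ℕ → ℕ → Bool} {z : ℕ → Bool} {X : Set ℕ}
    (x2 : ∀ j, (X \ {n | φ n j = z j}).Finite) : IsDiscrete (φ '' (X ∩ {n | φ n = z}ᶜ)) := by
  refine isDiscrete_iff_forall_mem_exists_isOpen.mpr ?_
  rintro _ ⟨n, hn, rfl⟩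
  obtain ⟨j, hj⟩ := ne_iff.mp hn.2
  refine ⟨{w | w j = φ n j} ∩ (φ '' (X \ {n | φ n j = z j}) \ {φ n})ᶜ, IsOpen.inter
    ((isOpen_discrete {φ n j}).preimage (f := fun w : ℕ → Bool => w j) (continuous_apply j))
    (((x2 j).image φ).subset diff_subset).isClosed.isOpen_compl, subset_antisymm ?_ ?_⟩
  · rintro _ ⟨⟨a, b⟩, m, hm, rfl⟩
    by_contra t
    exact b ⟨⟨m, ⟨hm.1, fun s => hj (a.symm.trans s)⟩, rfl⟩, t⟩
  · rintro _ rfl
    exact ⟨⟨rfl, fun t => t.2 rfl⟩, n, hn, rfl⟩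

lemma d_unc : ℵ₀ < Order.cof (ℕ → ℕ) := by
  obtain ⟨D, d1, d2⟩ := Order.exists_cof_eq (ℕ → ℕ)
  rw [← d2]
  by_contra t
  obtain ⟨e, rfl⟩ := (le_aleph0_iff_set_countable.mp (not_lt.mp t)).exists_eq_range
    ((d1 0).imp fun _ h => h.1)
  obtain ⟨_, ⟨n, rfl⟩, h⟩ := d1 fun n => e n n + 1
  exact absurd (h n) (by simp)

/-- Ketonen's lemma for a convergent set -/
lemma ket {J : Type} (hJ : #J < Order.cof (ℕ → ℕ)) {X : J → Set ℕ} {R : Ultrafilter ℕ}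
    (hR : Nonprincipal R) (hX : ∀ j, X j ∈ R) (φ : ℕ → ℕ → Bool) :
    ∃ A, IsDiscrete (φ '' A) ∧ ∀ t : Finset J, (A ∩ ⋂ j ∈ t, X j).Infinite := by
  classical
  let z : ℕ → Bool := fun j => decide ({n | φ n j = true} ∈ R)
  have hz : ∀ j, {n | φ n j = z j} ∈ R := fun j => by
    by_cases c : {n | φ n j = true} ∈ R
    · simpa [z, c] using c
    · filter_upwards [Ultrafilter.compl_mem_iff_notMem.mpr c] with n hn
      simpa [z, c] using hn
  have ht : ∀ t : Finset J, (⋂ j ∈ t, X j) ∈ R := fun t =>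
    show _ ∈ (R : Filter ℕ) from (biInter_finset_mem t).mpr fun j _ => hX j
  by_cases c : {n | φ n = z} ∈ R
  · exact ⟨_, ((finite_singleton z).subset (by rintro _ ⟨n, hn, rfl⟩; exact hn)).isDiscrete,
      fun t => hR.inf (inter_mem c (ht t))⟩
  have : ∀ (y : Finset J × ℕ) (j : ℕ), ∃ n, n ∈ {n | φ n = z}ᶜ ∩ ((⋂ i ∈ Iio j,
      {n | φ n i = z i}) ∩ ⋂ j ∈ y.1, X j) ∧ y.2 < n := fun y j =>
    (hR.inf (inter_mem (Ultrafilter.compl_mem_iff_notMem.mpr c) (inter_mem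
      ((biInter_mem (f := (R : Filter ℕ)) (s := fun i => {n | φ n i = z i}) (finite_Iio j)).mpr
        fun i _ => hz i) (ht y.1)))).exists_gt y.2
  choose g g1 g2 using this
  obtain ⟨h, hh⟩ : ∃ h : ℕ → ℕ, ∀ y, ∃ j, g y j < h j := by
    have : ¬ IsCofinal (range g) := fun t => by
      refine absurd ((Order.cof_le t).trans mk_range_le) (not_le.mpr ?_)
      rw [mk_prod, lift_id, lift_id, mk_nat]
      exact mul_lt_of_lt d_unc.le (((mk_le_of_surjective List.toFinset_surjective).trans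
        (mk_list_le_max J)).trans_lt (max_lt d_unc hJ)) d_unc
    by_contra t
    push Not at t
    exact this fun h => (t h).elim fun y hy => ⟨_, ⟨y, rfl⟩, hy⟩
  refine ⟨(⋃ j, (⋂ i ∈ Iio j, {n | φ n i = z i}) ∩ Iio (h j)) ∩ {n | φ n = z}ᶜ, disc_of fun j =>
    ((finite_Iic j).biUnion fun i _ => finite_Iio (h i)).subset ?_,
    fun t => infinite_of_forall_exists_gt fun k => ?_⟩
  · rintro n ⟨n1, n2⟩
    obtain ⟨i, i1, i2⟩ := mem_iUnion.mp n1
    exact mem_biUnion (show i ≤ j from not_lt.mp fun s : j < i => n2 (mem_iInter₂.mp i1 j s)) i2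
  · obtain ⟨j, hj⟩ := hh (t, k)
    exact ⟨g (t, k) j, ⟨⟨mem_iUnion.mpr ⟨j, (g1 (t, k) j).2.1, hj⟩, (g1 (t, k) j).1⟩,
      (g1 (t, k) j).2.2⟩, g2 (t, k) j⟩

lemma uf_of {ι : Type} [LinearOrder ι] (I : ι → Set ℕ) (S : Set ι)
    (h : ∀ β ∈ S, ∀ u : Set ι, u.Finite → (I β ∩ ⋂ γ ∈ u, ⋂ _ : γ < β, I γ).Infinite) :
    ∃ R : Ultrafilter ℕ, Nonprincipal R ∧ ∀ β ∈ S, I β ∈ R := by
  haveI : NeBot (cofinite ⊓ ⨅ β ∈ S, 𝓟 (I β)) := inf_neBot_iff.mpr fun s hs t ht => by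
    rw [iInf_subtype', mem_iInf] at ht
    obtain ⟨u, u1, V, v1, rfl⟩ := ht
    suffices (⋂ i, V i).Infinite from ((this.diff hs).nonempty).imp fun x hx =>
      ⟨not_not.mp hx.2, hx.1⟩
    rcases u.eq_empty_or_nonempty with rfl | e
    · simpa using infinite_univ
    obtain ⟨β, b1, b2⟩ := exists_max_image u id u1 e
    refine (h β β.2 _ (u1.image Subtype.val)).mono fun x hx => mem_iInter.mpr fun i => v1 i ?_
    rcases (b2 i i.2).eq_or_lt with t | t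
    · exact (show i.1 = β from t) ▸ hx.1
    · exact mem_iInter.mp (mem_iInter₂.mp hx.2 i ⟨i, i.2, rfl⟩) t
  obtain ⟨R, hR⟩ := Ultrafilter.exists_le (cofinite ⊓ ⨅ β ∈ S, 𝓟 (I β))
  exact ⟨R, fun n => Ultrafilter.compl_mem_iff_notMem.mp ((hR.trans inf_le_left)
    (finite_singleton n).compl_mem_cofinite), fun β hβ =>
      le_principal_iff.mp (hR.trans (inf_le_right.trans (iInf₂_le β hβ)))⟩

lemma many {ι : Type} (hι : #ι ≤ Order.cof (ℕ → ℕ)) (Φ : ι → ℕ → ℕ → Bool) :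
    ∃ W : Ultrafilter ℕ, Nonprincipal W ∧ ∀ i, ∃ A ∈ W, IsDiscrete (Φ i '' A) := by
  obtain ⟨_, _, hr⟩ := exists_ord_eq_type_lt ι
  let Q : (α : ι) → ((β : ι) → β < α → Set ℕ) → Set ℕ → Prop := fun α F A =>
    IsDiscrete (Φ α '' A) ∧ ∀ u : Set ι, u.Finite →
      (A ∩ ⋂ γ ∈ u, ⋂ h : γ < α, F γ h).Infinite
  let I : ι → Set ℕ := wellFounded_lt.fix (fun α F => Classical.epsilon (Q α F))
  have hI : ∀ α, I α = Classical.epsilon (Q α (fun β _ => I β)) :=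
    fun α => wellFounded_lt.fix_eq _ α
  have key : ∀ α, Q α (fun β _ => I β) (I α) := by
    intro α
    refine wellFounded_lt.induction (C := fun α => Q α (fun β _ => I β) (I α)) α fun α ih => ?_
    · rw [hI α]
      apply Classical.epsilon_spec
      obtain ⟨R, r1, r2⟩ := uf_of I (Iio α) fun β hβ => (ih β hβ).2
      obtain ⟨A, a1, a2⟩ := ket ((mk_Iio_lt α hr).trans_le hι) (X := fun β => I β) r1
        (fun β => r2 β β.2) (Φ α)
      refine ⟨A, a1, fun u hu => (a2 (hu.preimage Subtype.val_injective.injOn).toFinset).mono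
        (inter_subset_inter_right _ fun x hx => mem_iInter₂.mpr fun γ hγ =>
          mem_iInter.mpr fun h => mem_iInter₂.mp hx ⟨γ, h⟩ (by simpa using hγ))⟩
  obtain ⟨W, w1, w2⟩ := uf_of I univ fun β _ => (key β).2
  exact ⟨W, w1, fun i => ⟨_, w2 i trivial, (key i).1⟩⟩

lemma sep {p : ℕ → Ultrafilter ℕ} (hp : Injective p) : ∃ φ : ℕ → ℕ → Bool, ∀ I,
    IsDiscrete (φ '' I) → ∃ B : ℕ → Set ℕ, (∀ n ∈ I, B n ∈ p n) ∧
      ∀ n ∈ I, ∀ m ∈ I, ∀ x ∈ B n, x ∈ B m → n = m := by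
  classical
  have : ∀ n m, ∃ E : Set ℕ, n ≠ m → E ∈ p n ∧ E ∉ p m := fun n m => by
    by_contra t
    push Not at t
    exact (t ∅).1 (hp (Ultrafilter.eq_of_le fun E hE => (t E).2 hE).symm)
  choose E hE using this
  let φ : ℕ → ℕ → Bool := fun n j => decide (E j.unpair.1 j.unpair.2 ∈ p n)
  let ψ : ℕ → ℕ → Bool := fun x j => decide (x ∈ E j.unpair.1 j.unpair.2)
  have φi : Injective φ := fun n m h => by
    by_contra t
    have := congrFun h (n.pair m)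
    simp [φ, hE n m t] at this
  have tn : ∀ n, Tendsto ψ (p n) (𝓝 (φ n)) := fun n => tendsto_pi_nhds.mpr fun j => by
    rw [nhds_discrete, tendsto_pure]
    by_cases c : E j.unpair.1 j.unpair.2 ∈ p n
    · filter_upwards [c] with x hx
      simp [φ, ψ, c, hx]
    · filter_upwards [Ultrafilter.compl_mem_iff_notMem.mpr c] with x hx
      simpa [φ, ψ, c] using hx
  refine ⟨φ, fun I i2 => ?_⟩
  have : ∀ n ∈ I, ∃ O ∈ p n, ∀ m ∈ I, m ≠ n → Oᶜ ∈ p m := fun n hn => by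
    obtain ⟨u, u1, u2⟩ := isDiscrete_iff_forall_mem_exists_isOpen.mp i2 _ ⟨n, hn, rfl⟩
    obtain ⟨t, t1, t2, t3⟩ := exists_mem_nhds_isClosed_subset (u1.mem_nhds (u2.ge rfl).1)
    exact ⟨ψ ⁻¹' t, tn n t1, fun m hm h => tn m (t2.isOpen_compl.mem_nhds fun s =>
      h (φi (u2.le ⟨t3 s, m, hm, rfl⟩)))⟩
  choose! O o1 o2 using this
  refine ⟨fun n => O n ∩ ⋂ m ∈ I ∩ Iio n, (O m)ᶜ, fun n hn => inter_mem (o1 n hn)
    ((biInter_mem ((finite_Iio n).inter_of_right I)).mpr fun m hm =>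
      o2 m hm.1 n hn (ne_of_gt hm.2)), fun n hn m hm x a b => ?_⟩
  rcases lt_trichotomy n m with t | t | t
  · exact absurd a.1 (mem_iInter₂.mp b.2 n ⟨hn, t⟩)
  · exact t
  · exact absurd b.1 (mem_iInter₂.mp a.2 m ⟨hm, t⟩)

lemma mem_bind {W : Ultrafilter ℕ} {x : ℕ → Ultrafilter ℕ} {A : Set ℕ} :
    A ∈ W.bind x ↔ {n | A ∈ x n} ∈ W := Iff.rfl

lemma qsum {V : ℕ → Ultrafilter ℕ} (hV : ∀ n, QPoint (V n))
    (hI : Pairwise fun n m => ¬ Iso (V n) (V m)) {f : ℕ → ℕ} (hf : ∀ c, {x | f x = c}.Finite) :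
    ∃ φ : ℕ → ℕ → Bool, ∀ W : Ultrafilter ℕ, (∃ I ∈ W, IsDiscrete (φ '' I)) →
      ∃ X ∈ W.bind fun n => (V n).map (Nat.pair n), InjOn f X := by
  choose A a1 a2 using fun n => (qp_iff.mp (hV n)).2 (fun x => f (n.pair x)) fun c =>
    (hf c).preimage (f := Nat.pair n) fun x _ y _ h => (Nat.pair_eq_pair.mp h).2
  obtain ⟨φ, hφ⟩ := sep (p := fun n => (V n).map fun x => f (n.pair x))
    fun n m h => by
      by_contra t
      exact hI t (iso_of (hV n).1 (a1 n) (a1 m) (a2 n) (a2 m) h)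
  refine ⟨φ, fun W ⟨I, i1, i2⟩ => ?_⟩
  obtain ⟨B, b1, b2⟩ := hφ I i2
  refine ⟨{z | z.unpair.1 ∈ I ∧ z.unpair.2 ∈ A z.unpair.1 ∧ f z ∈ B z.unpair.1},
    mem_bind.mpr ?_, fun x hx y hy e => ?_⟩
  · filter_upwards [i1] with n hn
    show _ ∈ V n
    filter_upwards [a1 n, show _ ∈ V n from b1 n hn] with x c d
    simpa [hn, c] using d
  · have h := b2 _ hx.1 _ hy.1 _ hx.2.2 (e ▸ hy.2.2)
    refine Nat.pairEquiv.symm.injective (Prod.ext h (a2 _ hx.2.1 (h ▸ hy.2.1) ?_))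
    have : Nat.pair x.unpair.1 y.unpair.2 = y := by rw [h, Nat.pair_unpair]
    simpa [this] using e

lemma intv (h : ℕ → ℕ) : ∃ f : ℕ → ℕ, (∀ c, {x | f x = c}.Finite) ∧
    ∀ x y, x ≤ y → y ≤ h x → f y = f x ∨ f y = f x + 1 := by
  obtain ⟨a, ha⟩ : ∃ a : ℕ → ℕ, ∀ k, a (k + 1) = a k + 1 + (Finset.range (a k)).sup h :=
    ⟨fun k => Nat.rec 0 (fun _ w => w + 1 + (Finset.range w).sup h) k, fun _ => rfl⟩
  have am : StrictMono a := strictMono_nat_of_lt_succ fun k => by rw [ha]; omega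
  have e : ∀ x, ∃ k, x < a k := fun x => ⟨x + 1, am.id_le (x + 1)⟩
  refine ⟨fun x => Nat.find (e x), fun c => (finite_Iio (a c)).subset fun x hx =>
    (show Nat.find (e x) = c from hx) ▸ Nat.find_spec (e x), fun x y h1 h2 => ?_⟩
  have b : Nat.find (e x) ≤ Nat.find (e y) := Nat.find_mono fun k hk => h1.trans_lt hk
  have c : Nat.find (e y) ≤ Nat.find (e x) + 1 := Nat.find_min' _ (by
    have := Finset.le_sup (f := h) (Finset.mem_range.mpr (Nat.find_spec (e x)))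
    rw [ha]
    omega)
  beta_reduce
  omega

lemma qp_of {U : Ultrafilter ℕ} (hU : Nonprincipal U) {D : Set (ℕ → ℕ)} (hD : IsCofinal D)
    (h : ∀ d : D, ∃ X ∈ U, InjOn (intv d).choose X) : QPoint U := by
  refine qp_iff.mpr ⟨hU, fun f hf => ?_⟩
  choose g hg using fun x => (hf (f x)).bddAbove
  obtain ⟨d, d1, d2⟩ := hD g
  obtain ⟨X, x1, x2⟩ := h ⟨d, d1⟩
  obtain ⟨-, s⟩ := (intv d).choose_spec
  generalize (intv d).choose = k at x2 s
  obtain ⟨v, hv⟩ : ∃ v, {x | k x % 2 = v} ∈ U := by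
    rcases U.mem_or_compl_mem {x | k x % 2 = 0} with t | t
    · exact ⟨_, t⟩
    · exact ⟨1, mem_of_superset t fun z hz => by simpa using hz⟩
  have : ∀ x ∈ X ∩ {x | k x % 2 = v}, ∀ y ∈ X ∩ {x | k x % 2 = v}, x ≤ y → f x = f y → x = y :=
    fun x hx y hy l e => x2 hx.1 hy.1 (by
      have := s x y l ((hg x e.symm).trans (d2 x))
      have a : k x % 2 = v := hx.2
      have b : k y % 2 = v := hy.2
      omega)
  exact ⟨_, inter_mem x1 hv, fun x hx y hy e => (le_total x y).elim (fun l => this x hx y hy l e)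
    fun l => (this y hy x hx l e.symm).symm⟩

lemma half {W : Ultrafilter ℕ} {x y : ℕ → Ultrafilter ℕ} {c d : ℕ → ℕ}
    (hc : ∀ n, c ⁻¹' {n} ∈ x n) (hd : ∀ m, d ⁻¹' {m} ∈ y m) (h : W.bind x = W.bind y)
    (hN : {n | ∀ A ∈ x n, ∃ m, A ∈ y m} ∈ W) : {n | ∃ m, x n = y m} ∈ W := by
  classical
  by_contra t
  have hN' := inter_mem hN (Ultrafilter.compl_mem_iff_notMem.mpr t)
  have k1 : ∀ (S : Set ℕ) m, d ⁻¹' S ∈ y m → m ∈ S := fun S m s => by
    obtain ⟨z, z1, z2⟩ := (y m).nonempty_of_mem (inter_mem s (hd m))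
    exact (show d z = m from z2) ▸ z1
  have k2 : ∀ n, (∀ A ∈ x n, ∃ m, A ∈ y m) → ∀ A ∈ x n, d ⁻¹' {m | A ∈ y m} ∈ x n := by
    intro n hn A hA
    by_contra s
    obtain ⟨m, hm⟩ := hn _ (inter_mem (Ultrafilter.compl_mem_iff_notMem.mpr s) hA)
    exact k1 {m | A ∈ y m}ᶜ m (mem_of_superset hm inter_subset_left)
      (mem_of_superset hm inter_subset_right)
  have k3 : ∀ S : Set ℕ, {n | d ⁻¹' S ∈ x n} ∈ W → S ∈ W := fun S s => by
    have : d ⁻¹' S ∈ W.bind y := h ▸ mem_bind.mpr s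
    exact mem_of_superset (mem_bind.mp this) (k1 S)
  have : ∀ m, ∃ n, ∀ n', c ⁻¹' {n'} ∈ y m → n' = n := fun m => by
    by_cases s : ∃ n, c ⁻¹' {n} ∈ y m
    · obtain ⟨n, hn⟩ := s
      refine ⟨n, fun n' hn' => ?_⟩
      obtain ⟨z, z1, z2⟩ := (y m).nonempty_of_mem (inter_mem hn hn')
      exact (show c z = n' from z2).symm.trans z1
    · exact ⟨0, fun n hn => absurd ⟨n, hn⟩ s⟩
  choose g hg using this
  have k4 : ∀ n, (∀ A ∈ x n, ∃ m, A ∈ y m) → d ⁻¹' (g ⁻¹' {n}) ∈ x n := fun n hn =>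
    mem_of_superset (k2 n hn _ (hc n)) fun z hz => (hg _ _ hz).symm
  have k5 : {m | g m < m} ∈ W := k3 _ (by
    filter_upwards [hN'] with n hn
    have : ∀ m, (d ⁻¹' {m})ᶜ ∈ x n := fun m => Ultrafilter.compl_mem_iff_notMem.mpr fun s =>
      hn.2 ⟨m, (Ultrafilter.eq_of_le fun A hA => by
        obtain ⟨z, z1, z2⟩ := (x n).nonempty_of_mem (inter_mem (k2 n hn.1 A hA) s)
        exact (show d z = m from z2) ▸ z1).symm⟩
    filter_upwards [k4 n hn.1, (biInter_mem (finite_Iic n)).mpr fun m _ => this m] with z z1 z2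
    by_contra s
    exact mem_iInter₂.mp z2 (d z) ((not_lt.mp s).trans_eq z1) rfl)
  have k6 : ∀ A ∈ W, g ⁻¹' A ∈ W := fun A hA => k3 _ (by
    filter_upwards [hN, hA] with n hn ha
    exact mem_of_superset (k4 n hn) fun z hz =>
      show g (d z) ∈ A from (show g (d z) = n from hz) ▸ ha)
  obtain ⟨b, hb⟩ : ∃ b : ℕ → Bool, ∀ m, g m < m → b m = !b (g m) := by
    let F : (m : ℕ) → ((k : ℕ) → k < m → Bool) → Bool :=
      fun m r => if s : g m < m then !r _ s else false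
    refine ⟨Nat.lt_wfRel.wf.fix F, fun m s => ?_⟩
    rw [WellFounded.fix_eq]
    exact dif_pos s
  obtain ⟨v, hv⟩ : ∃ v, b ⁻¹' {v} ∈ W := by
    rcases W.mem_or_compl_mem (b ⁻¹' {true}) with s | s
    · exact ⟨_, s⟩
    · exact ⟨false, mem_of_superset s fun z hz => by simpa using hz⟩
  obtain ⟨m, m1, m2, m3⟩ := W.nonempty_of_mem (inter_mem k5 (inter_mem hv (k6 _ hv)))
  have := hb m m1
  rw [show b m = v from m2, show b (g m) = v from m3] at this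
  simp at this

lemma dich {W : Ultrafilter ℕ} {x y : ℕ → Ultrafilter ℕ} (h : W.bind x = W.bind y) :
    {n | ∀ A ∈ x n, ∃ m, A ∈ y m} ∈ W ∨ {m | ∀ A ∈ y m, ∃ n, A ∈ x n} ∈ W := by
  by_contra t
  rw [not_or, ← Ultrafilter.compl_mem_iff_notMem, ← Ultrafilter.compl_mem_iff_notMem] at t
  have a : ∀ n, ∃ A : Set ℕ, (∀ m, Aᶜ ∈ y m) ∧ (n ∉ {n | ∀ A ∈ x n, ∃ m, A ∈ y m} → A ∈ x n) := by
    intro n
    by_cases s : n ∈ {n | ∀ A ∈ x n, ∃ m, A ∈ y m}
    · exact ⟨∅, fun m => univ_mem' fun _ => id, fun u => absurd s u⟩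
    · simp only [mem_setOf_eq, not_forall, not_exists] at s
      obtain ⟨A, a, b⟩ := s
      exact ⟨A, fun m => Ultrafilter.compl_mem_iff_notMem.mpr (b m), fun _ => a⟩
  have b : ∀ n, ∃ A : Set ℕ, (∀ m, Aᶜ ∈ x m) ∧ (n ∉ {n | ∀ A ∈ y n, ∃ m, A ∈ x m} → A ∈ y n) := by
    intro n
    by_cases s : n ∈ {n | ∀ A ∈ y n, ∃ m, A ∈ x m}
    · exact ⟨∅, fun m => univ_mem' fun _ => id, fun u => absurd s u⟩
    · simp only [mem_setOf_eq, not_forall, not_exists] at s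
      obtain ⟨A, a, b⟩ := s
      exact ⟨A, fun m => Ultrafilter.compl_mem_iff_notMem.mpr (b m), fun _ => a⟩
  choose A a1 a2 using a
  choose B b1 b2 using b
  have c : (⋃ n, A n ∩ ⋂ m ∈ Iic n, (B m)ᶜ) ∈ W.bind x := mem_bind.mpr (by
    filter_upwards [t.1] with n hn
    exact mem_of_superset (inter_mem (a2 n hn) ((biInter_mem (finite_Iic n)).mpr fun m _ => b1 m n))
      (subset_iUnion (fun n => A n ∩ ⋂ m ∈ Iic n, (B m)ᶜ) n))
  have d : (⋃ n, B n ∩ ⋂ m ∈ Iic n, (A m)ᶜ) ∈ W.bind y := mem_bind.mpr (by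
    filter_upwards [t.2] with n hn
    exact mem_of_superset (inter_mem (b2 n hn) ((biInter_mem (finite_Iic n)).mpr fun m _ => a1 m n))
      (subset_iUnion (fun n => B n ∩ ⋂ m ∈ Iic n, (A m)ᶜ) n))
  obtain ⟨z, z1, z2⟩ := (W.bind y).nonempty_of_mem (inter_mem (h ▸ c) d)
  obtain ⟨n, n1, n2⟩ := mem_iUnion.mp z1
  obtain ⟨m, m1, m2⟩ := mem_iUnion.mp z2
  rcases le_total n m with s | s
  · exact mem_iInter₂.mp m2 n s n1
  · exact mem_iInter₂.mp n2 m s m1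

lemma main (V : ℕ → Ultrafilter ℕ) (hV : ∀ n, QPoint (V n))
    (hI : Pairwise fun n m => ¬ Iso (V n) (V m)) : ∃ S : Set (Ultrafilter ℕ),
      #S = Order.cof (ℕ → ℕ) ∧ (∀ U ∈ S, QPoint U) ∧ S.Pairwise fun U U' => ¬ Iso U U' := by
  obtain ⟨D, d1, d2⟩ := Order.exists_cof_eq (ℕ → ℕ)
  let e : (ℕ → ℕ) → ℕ → ℕ := fun s n => Encodable.encode ((List.range n).map s)
  have he : ∀ s t n m, e s n = e t m → n = m ∧ ∀ j < n, s j = t j := fun s t n m h => by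
    have h := Encodable.encode_injective h
    obtain rfl : n = m := by simpa using congrArg List.length h
    exact ⟨rfl, by simpa using h⟩
  choose Φ hΦ using fun i : D × D => qsum (V := fun n => V (e i.1 n)) (fun n => hV _)
    (fun n m h => hI fun t => h (he _ _ _ _ t).1) (intv i.2).choose_spec.1
  obtain ⟨W, hW, w2⟩ := many (ι := D × D) (by
    rw [mk_prod, lift_id, d2, mul_eq_self d_unc.le]) Φ
  have ni : Pairwise fun s t : D => ¬ Iso (W.bind fun n => (V (e s n)).map (Nat.pair n))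
      (W.bind fun n => (V (e t n)).map (Nat.pair n)) := by
    rintro s t hst ⟨π, hπ⟩
    obtain ⟨j, hj⟩ := ne_iff.mp (Subtype.val_injective.ne hst)
    have h : (W.bind fun n => (V (e s n)).map (π ∘ Nat.pair n)) =
        W.bind fun n => (V (e t n)).map (Nat.pair n) := hπ.symm
    have k : ∀ n m, (V (e s n)).map (π ∘ Nat.pair n) = (V (e t m)).map (Nat.pair m) →
        n ≤ j ∧ m ≤ j := fun n m u => by
      have pi : ∀ n, Injective (Nat.pair n) := fun n x y h => (Nat.pair_eq_pair.mp h).2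
      have : e s n = e t m := by
        by_contra v
        exact hI v (iso_of (hV _).1 univ_mem univ_mem (π.injective.comp (pi n)).injOn (pi m).injOn u)
      obtain ⟨rfl, w⟩ := he _ _ _ _ this
      exact ⟨not_lt.mp fun a => hj (w j a), not_lt.mp fun a => hj (w j a)⟩
    have hc : ∀ n, (fun z => (π.symm z).unpair.1) ⁻¹' {n} ∈ (V (e s n)).map (π ∘ Nat.pair n) :=
      fun n => show _ ∈ V _ from univ_mem' fun x => by simp
    have hd : ∀ n, (fun z : ℕ => z.unpair.1) ⁻¹' {n} ∈ (V (e t n)).map (Nat.pair n) :=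
      fun n => show _ ∈ V _ from univ_mem' fun x => by simp
    rcases dich h with u | u
    · exact hW.inf (half hc hd h u) ((finite_Iic j).subset fun n ⟨m, hm⟩ => (k n m hm).1)
    · exact hW.inf (half hd hc h.symm u)
        ((finite_Iic j).subset fun n ⟨m, hm⟩ => (k m n hm.symm).2)
  refine ⟨range fun s : D => W.bind fun n => (V (e s n)).map (Nat.pair n), ?_, ?_, ?_⟩
  · rw [mk_range_eq _ fun s t h => ?_, d2]
    by_contra c
    exact ni c ⟨1, h.symm⟩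
  · rintro _ ⟨s, rfl⟩
    refine qp_of (fun m t => ?_) d1 fun d => hΦ (s, d) W (w2 _)
    obtain ⟨n, hn⟩ := W.nonempty_of_mem (mem_bind.mp t)
    refine (hV _).1.inf hn (Set.Subsingleton.finite fun x hx y hy => ?_)
    exact (Nat.pair_eq_pair.mp (hx.trans hy.symm : Nat.pair n x = Nat.pair n y)).2
  · rintro _ ⟨s, rfl⟩ _ ⟨t, rfl⟩ h
    exact ni fun c => h (by rw [c])

/-- Infinitely many pairwise non-isomorphic Q-points give uncountably many (at least the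
dominating number), so the number of Q-points up to isomorphism is never exactly `ℵ₀`. -/
theorem result :
    (∀ V : ℕ → Ultrafilter ℕ, (∀ n, QPoint (V n)) → (Pairwise fun n m => ¬ Iso (V n) (V m)) →
      ∃ S : Set (Ultrafilter ℕ), ¬ S.Countable ∧ #S = Order.cof (ℕ → ℕ) ∧
        (∀ U ∈ S, QPoint U) ∧ S.Pairwise fun U U' => ¬ Iso U U') ∧
    ¬ ∃ V : ℕ → Ultrafilter ℕ, (∀ n, QPoint (V n)) ∧ (Pairwise fun n m => ¬ Iso (V n) (V m)) ∧
      ∀ U, QPoint U → ∃ n, Iso (V n) U := by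
  have a : ∀ S : Set (Ultrafilter ℕ), #S = Order.cof (ℕ → ℕ) → ¬ S.Countable := fun S h t =>
    absurd (h ▸ le_aleph0_iff_set_countable.mpr t) (not_le.mpr d_unc)
  refine ⟨fun V v1 v2 => (main V v1 v2).imp fun S h => ⟨a S h.1, h⟩, fun ⟨V, v1, v2, v3⟩ => ?_⟩
  obtain ⟨S, s1, s2, s3⟩ := main V v1 v2
  choose! n hn using v3
  refine a S s1 (countable_of_injective_of_countable_image (f := n) (fun U hU U' hU' e => ?_)
    (to_countable _))
  by_contra c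
  obtain ⟨π, h⟩ := hn U (s2 U hU)
  obtain ⟨σ, h'⟩ := hn U' (s2 U' hU')
  refine s3 hU hU' c ⟨π.symm.trans σ, ?_⟩
  rw [← e] at h'
  generalize V (n U) = T at h h'
  rw [h, h', Ultrafilter.map_map]
  congr 1
  ext x
  simp

end Pool.Agent.Results.MP_97d187_lc.Never
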